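import Pool.Agent.H5.FR2.Stmts

/-!
# BRN: Bernstein bound for a random function, counting form
-/

set_option autoImplicit false

namespace Pool.Agent.H5.FR2

open Finset Pool.Agent.H5.FR Pool.Agent.H80

private theorem brn_factor {b : ℕ} (hb : 2 ≤ b) (k : Fin b) (t : ℝ) (ht : |t| ≤ 1) :
    ∑ j : Fin b, Real.exp (t * ((if j = k then 1 else 0) - 1 / (b : ℝ))) ≤
      (b : ℝ) * Real.exp (t ^ 2 / b) := by
  have hb0 : (0 : ℝ) < b := by positivity
  have hb2 : (2 : ℝ) ≤ b := by exact_mod_cast hb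
  have h1 : ∀ j : Fin b, Real.exp (t * ((if j = k then 1 else 0) - 1 / (b : ℝ))) ≤
      1 + t * ((if j = k then 1 else 0) - 1 / (b : ℝ)) +
        (t * ((if j = k then 1 else 0) - 1 / (b : ℝ))) ^ 2 := by
    intro j
    have h2 : |t * ((if j = k then (1 : ℝ) else 0) - 1 / (b : ℝ))| ≤ 1 := by
      rw [abs_mul]
      have h3 : |(if j = k then (1 : ℝ) else 0) - 1 / (b : ℝ)| ≤ 1 := by
        have h4 : 0 < 1 / (b : ℝ) := by positivity
        have h5 : 1 / (b : ℝ) ≤ 1 := by
          rw [div_le_one hb0]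
          linarith
        rw [abs_le]
        split_ifs <;> constructor <;> linarith
      calc |t| * |(if j = k then (1 : ℝ) else 0) - 1 / (b : ℝ)| ≤ 1 * 1 := by
            apply mul_le_mul ht h3 (abs_nonneg _) zero_le_one
        _ = 1 := one_mul 1
    have h3 := Real.abs_exp_sub_one_sub_id_le h2
    have h4 := (abs_le.mp h3).2
    linarith
  have h2 : ∑ j : Fin b, ((if j = k then (1 : ℝ) else 0) - 1 / (b : ℝ)) = 0 := by
    rw [sum_sub_distrib, sum_ite_eq' univ k, if_pos (mem_univ _), sum_const, card_univ,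
      Fintype.card_fin, nsmul_eq_mul, mul_one_div_cancel hb0.ne', sub_self]
  have h3 : ∑ j : Fin b, ((if j = k then (1 : ℝ) else 0) - 1 / (b : ℝ)) ^ 2 ≤ 1 := by
    have h4 : ∀ j : Fin b, ((if j = k then (1 : ℝ) else 0) - 1 / (b : ℝ)) ^ 2 =
        (if j = k then (1 - 2 / (b : ℝ)) else 0) + 1 / (b : ℝ) ^ 2 := by
      intro j
      split_ifs
      · ring
      · ring
    rw [sum_congr rfl fun j _ => h4 j, sum_add_distrib, sum_ite_eq' univ k, if_pos (mem_univ _),
      sum_const, card_univ, Fintype.card_fin, nsmul_eq_mul]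
    have h5 : (b : ℝ) * (1 / (b : ℝ) ^ 2) = 1 / b := by
      field_simp
    rw [h5]
    have h6 : 0 < 1 / (b : ℝ) := by positivity
    have h7 : 2 / (b : ℝ) = 2 * (1 / b) := by ring
    rw [h7]
    linarith
  calc ∑ j : Fin b, Real.exp (t * ((if j = k then 1 else 0) - 1 / (b : ℝ)))
      ≤ ∑ j : Fin b, (1 + t * ((if j = k then 1 else 0) - 1 / (b : ℝ)) +
        (t * ((if j = k then 1 else 0) - 1 / (b : ℝ))) ^ 2) := sum_le_sum fun j _ => h1 j
    _ = b + t * ∑ j : Fin b, ((if j = k then (1 : ℝ) else 0) - 1 / (b : ℝ)) +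
        t ^ 2 * ∑ j : Fin b, ((if j = k then (1 : ℝ) else 0) - 1 / (b : ℝ)) ^ 2 := by
        rw [sum_add_distrib, sum_add_distrib, mul_sum, mul_sum]
        simp only [sum_const, card_univ, Fintype.card_fin, nsmul_eq_mul, mul_one, mul_pow]
    _ ≤ b + t * 0 + t ^ 2 * 1 := by
        rw [h2]
        have := mul_le_mul_of_nonneg_left h3 (sq_nonneg t)
        linarith
    _ = b * (t ^ 2 / b + 1) := by
        field_simp
        ring
    _ ≤ b * Real.exp (t ^ 2 / b) :=
        mul_le_mul_of_nonneg_left (Real.add_one_le_exp _) hb0.le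

theorem brn_thm : BRNStmt := by
  intro V _ _ b hb c a ha k θ τ hθ0 hθ1
  have hb0 : (0 : ℝ) < b := by positivity
  set S : (V → Fin b) → ℝ := fun g =>
    ∑ v ∈ c, a v * ((if g v = k then 1 else 0) - 1 / (b : ℝ)) with hS
  have h1 : ((univ.filter (fun g : V → Fin b => τ ≤ S g)).card : ℝ) ≤
      ∑ g : V → Fin b, Real.exp (θ * S g - θ * τ) := by
    rw [card_eq_sum_ones, Nat.cast_sum, Nat.cast_one]
    calc ∑ g ∈ univ.filter (fun g : V → Fin b => τ ≤ S g), (1 : ℝ) ≤
        ∑ g ∈ univ.filter (fun g : V → Fin b => τ ≤ S g), Real.exp (θ * S g - θ * τ) := by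
          refine sum_le_sum fun g hg => ?_
          have hg' : τ ≤ S g := (mem_filter.mp hg).2
          apply Real.one_le_exp
          have := mul_le_mul_of_nonneg_left hg' hθ0
          linarith
      _ ≤ ∑ g : V → Fin b, Real.exp (θ * S g - θ * τ) := by
          apply sum_le_sum_of_subset_of_nonneg (filter_subset _ _)
          intro g _ _
          exact (Real.exp_pos _).le
  have h2 : ∀ g : V → Fin b, Real.exp (θ * S g - θ * τ) = Real.exp (-(θ * τ)) *
      ∏ v, (if v ∈ c then Real.exp (θ * a v * ((if g v = k then 1 else 0) - 1 / (b : ℝ)))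
        else 1) := by
    intro g
    rw [sub_eq_add_neg, add_comm, Real.exp_add, prod_ite_mem, univ_inter, ← Real.exp_sum, hS,
      mul_sum]
    simp only [mul_assoc]
  have h3 : ∑ g : V → Fin b, ∏ v, (if v ∈ c then
      Real.exp (θ * a v * ((if g v = k then 1 else 0) - 1 / (b : ℝ))) else 1) =
      ∏ v, ∑ j : Fin b, (if v ∈ c then
        Real.exp (θ * a v * ((if j = k then 1 else 0) - 1 / (b : ℝ))) else 1) := by
    rw [prod_univ_sum, Fintype.piFinset_univ]
  have h4 : ∏ v, ∑ j : Fin b, (if v ∈ c then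
        Real.exp (θ * a v * ((if j = k then 1 else 0) - 1 / (b : ℝ))) else 1) ≤
      ∏ v : V, (b : ℝ) * (if v ∈ c then Real.exp ((θ * a v) ^ 2 / b) else 1) := by
    apply prod_le_prod
    · intro v _
      apply sum_nonneg
      intro j _
      by_cases hv : v ∈ c
      · rw [if_pos hv]
        exact (Real.exp_pos _).le
      · rw [if_neg hv]
        exact zero_le_one
    · intro v _
      by_cases hv : v ∈ c
      · simp only [if_pos hv]
        apply brn_factor hb k (θ * a v)
        rw [abs_mul, abs_of_nonneg hθ0]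
        exact mul_le_one₀ hθ1 (abs_nonneg _) (ha v)
      · simp only [if_neg hv, sum_const, card_univ, Fintype.card_fin, nsmul_eq_mul, mul_one]
        exact le_rfl
  have h5 : ∏ v : V, (b : ℝ) * (if v ∈ c then Real.exp ((θ * a v) ^ 2 / b) else 1) =
      (b : ℝ) ^ Fintype.card V * Real.exp (θ ^ 2 * (∑ v ∈ c, a v ^ 2) / b) := by
    rw [prod_mul_distrib, prod_const, card_univ, prod_ite_mem, univ_inter, ← Real.exp_sum,
      mul_sum, sum_div]
    simp only [mul_pow]
  calc ((univ.filter (fun g : V → Fin b => τ ≤ S g)).card : ℝ)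
      ≤ ∑ g : V → Fin b, Real.exp (θ * S g - θ * τ) := h1
    _ = Real.exp (-(θ * τ)) * ∏ v, ∑ j : Fin b, (if v ∈ c then
        Real.exp (θ * a v * ((if j = k then 1 else 0) - 1 / (b : ℝ))) else 1) := by
        rw [sum_congr rfl fun g _ => h2 g, ← mul_sum, h3]
    _ ≤ Real.exp (-(θ * τ)) * ((b : ℝ) ^ Fintype.card V * Real.exp (θ ^ 2 * (∑ v ∈ c, a v ^ 2) / b)) := by
        rw [← h5]
        exact mul_le_mul_of_nonneg_left h4 (Real.exp_pos _).le
    _ = Real.exp (θ ^ 2 * (∑ v ∈ c, a v ^ 2) / b - θ * τ) * (Fintype.card (V → Fin b) : ℝ) := by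
        rw [Fintype.card_fun, Fintype.card_fin, Nat.cast_pow, sub_eq_add_neg, Real.exp_add]
        ring

end Pool.Agent.H5.FR2
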