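import Pool.Agent.H5.FR2.Stmts

/-!
# Project URB, module CPO: supports of semistable tuples in all pairs of orthonormal bases
-/

set_option autoImplicit false

namespace Pool.Agent.H5.FR2

open Finset Pool.Agent.H5.FR Pool.Agent.H80

theorem cpo_thm (hHAL : HALStmt) : CPOStmt := by
  intro n X Y _ _ _ _ B hB U V hU hV
  classical
  refine hHAL X Y (fun i j => ∃ a, (U.conjTranspose * B a * V) i j ≠ 0) ?_
  intro J
  have hUU : U * U.conjTranspose = 1 := by
    rw [← Matrix.star_eq_conjTranspose]
    exact Matrix.mem_unitaryGroup_iff.1 hU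
  have hVu : IsUnit V := by
    rw [Matrix.isUnit_iff_isUnit_det]
    have h1 := Matrix.mem_unitaryGroup_iff.1 hV
    have h2 : V.det * (star V).det = 1 := by rw [← Matrix.det_mul, h1, Matrix.det_one]
    exact IsUnit.of_mul_eq_one _ h2
  have hlin : LinearIndependent ℂ (fun j : J => V.transpose (j : Y)) := by
    have h1 := (Matrix.linearIndependent_cols_iff_isUnit (A := V)).2 hVu
    exact h1.comp (fun j : J => (j : Y)) Subtype.val_injective
  set W : Submodule ℂ (Y → ℂ) := Submodule.span ℂ (Set.range (fun j : J => V.transpose (j : Y)))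
    with hW
  have hWf : Module.finrank ℂ W = J.card := by
    rw [hW, finrank_span_eq_card hlin, Fintype.card_coe]
  set N := {i // ∃ j ∈ J, ∃ a, (U.conjTranspose * B a * V) i j ≠ 0} with hN
  set Z : Submodule ℂ (X → ℂ) := Submodule.span ℂ (Set.range (fun i : N => U.transpose (i : X)))
    with hZ
  have hZf : Module.finrank ℂ Z ≤ Nat.card N := by
    rw [Nat.card_eq_fintype_card]
    exact finrank_range_le_card (R := ℂ) (fun i : N => U.transpose (i : X))
  have hle : img B W ≤ Z := by
    refine iSup_le fun a => ?_
    rw [Submodule.map_le_iff_le_comap, hW, Submodule.span_le]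
    rintro _ ⟨j, rfl⟩
    have h1 : B a * V = U * (U.conjTranspose * B a * V) := by
      rw [← Matrix.mul_assoc, ← Matrix.mul_assoc, hUU, Matrix.one_mul]
    have h2 : (B a).mulVecLin (V.transpose (j : Y)) =
        ∑ i, (U.conjTranspose * B a * V) i j • U.transpose i := by
      funext k
      have h3 := congrFun (congrFun h1 k) (j : Y)
      rw [Matrix.mul_apply, Matrix.mul_apply] at h3
      rw [Finset.sum_apply]
      simp only [Matrix.mulVecLin_apply, Matrix.mulVec, dotProduct, Matrix.transpose_apply,
        Pi.smul_apply, smul_eq_mul]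
      rw [h3]
      exact Finset.sum_congr rfl fun i _ => mul_comm _ _
    show (B a).mulVecLin (V.transpose (j : Y)) ∈ Z
    rw [h2]
    refine Submodule.sum_mem _ fun i _ => ?_
    by_cases h0 : (U.conjTranspose * B a * V) i j = 0
    · rw [h0, zero_smul]
      exact Submodule.zero_mem _
    · exact Submodule.smul_mem _ _ (Submodule.subset_span ⟨⟨i, j, j.2, a, h0⟩, rfl⟩)
  have h1 := hB W
  rw [hWf] at h1
  refine h1.trans (Nat.mul_le_mul le_rfl ?_)
  exact (Submodule.finrank_mono hle).trans hZf

end Pool.Agent.H5.FR2
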