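import Pool.Agent.H5.FR2.Stmts

/-!
# Project URB, module REC: a regular block is good with probability at least `1 - 1/(4 b)`
-/

set_option autoImplicit false

namespace Pool.Agent.H5.FR2

open Finset Pool.Agent.H5.FR Pool.Agent.H80

/-- counting in a product: a set of pairs whose fibres are small outside a small set -/
private theorem rec_count {G O : Type} [Fintype G] [Fintype O] (E : G → Prop) (B : G → O → Prop)
    (hE : (Nat.card {g : G // E g} : ℝ) ≤ 1 / 4 * (Fintype.card G : ℝ))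
    (hB : ∀ g, ¬ E g → (Nat.card {o : O // B g o} : ℝ) ≤ 1 / 4 * (Nat.card O : ℝ)) :
    (Nat.card {p : G × O // B p.1 p.2} : ℝ) ≤ 1 / 2 * (Nat.card (G × O) : ℝ) := by
  classical
  have h1 : (Nat.card {p : G × O // B p.1 p.2} : ℝ) = ∑ g : G, (Nat.card {o : O // B g o} : ℝ) := by
    have e : {p : G × O // B p.1 p.2} ≃ (Σ g : G, {o : O // B g o}) :=
      { toFun := fun p => ⟨p.1.1, ⟨p.1.2, p.2⟩⟩
        invFun := fun q => ⟨(q.1, q.2.1), q.2.2⟩
        left_inv := fun p => rfl
        right_inv := fun q => rfl }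
    rw [Nat.card_congr e, Nat.card_sigma]
    push_cast
    rfl
  have h2 : ∀ g : G, (Nat.card {o : O // B g o} : ℝ) ≤
      (if E g then (Nat.card O : ℝ) else 0) + 1 / 4 * (Nat.card O : ℝ) := by
    intro g
    by_cases hg : E g
    · rw [if_pos hg]
      have h3 : (Nat.card {o : O // B g o} : ℝ) ≤ (Nat.card O : ℝ) := by
        exact_mod_cast Nat.card_le_card_of_injective (fun o : {o : O // B g o} => o.1)
          Subtype.val_injective
      have h4 : (0 : ℝ) ≤ (Nat.card O : ℝ) := by positivity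
      linarith
    · rw [if_neg hg, zero_add]
      exact hB g hg
  rw [h1]
  refine le_trans (Finset.sum_le_sum (fun g _ => h2 g)) ?_
  rw [Finset.sum_add_distrib, Finset.sum_const, Finset.card_univ, nsmul_eq_mul,
    ← Finset.sum_filter, Finset.sum_const, nsmul_eq_mul]
  have h5 : ((univ.filter (fun g : G => E g)).card : ℝ) = (Nat.card {g : G // E g} : ℝ) := by
    rw [Nat.card_eq_fintype_card, Fintype.card_subtype]
  rw [h5]
  have h6 : (Nat.card (G × O) : ℝ) = (Fintype.card G : ℝ) * (Nat.card O : ℝ) := by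
    rw [Nat.card_prod, Nat.card_eq_fintype_card]
    push_cast
    rfl
  rw [h6]
  have h4 : (0 : ℝ) ≤ (Nat.card O : ℝ) := by positivity
  nlinarith [mul_le_mul_of_nonneg_right hE h4]

/-- union bound for the parts -/
private theorem rec_union {O ι : Type} [Fintype O] [Fintype ι] (P : Prop) (hP : P) (Q : ι → O → Prop) (x : ℝ)
    (hQ : ∀ k, (Nat.card {o : O // ¬ Q k o} : ℝ) ≤ x) :
    (Nat.card {o : O // ¬ (P ∧ ∀ k, Q k o)} : ℝ) ≤ (Fintype.card ι : ℝ) * x := by
  classical
  have h1 : (Nat.card {o : O // ¬ (P ∧ ∀ k, Q k o)} : ℝ) =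
      ((univ.filter (fun o : O => ¬ (P ∧ ∀ k, Q k o))).card : ℝ) := by
    rw [Nat.card_eq_fintype_card, Fintype.card_subtype]
  have h2 : univ.filter (fun o : O => ¬ (P ∧ ∀ k, Q k o)) ⊆
      (univ : Finset ι).biUnion (fun k => univ.filter (fun o : O => ¬ Q k o)) := by
    intro o ho
    simp only [mem_filter, mem_univ, true_and, not_and, not_forall, mem_biUnion] at ho ⊢
    obtain ⟨k, hk⟩ := ho hP
    exact ⟨k, hk⟩
  have h3 : ∀ k, ((univ.filter (fun o : O => ¬ Q k o)).card : ℝ) ≤ x := by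
    intro k
    have := hQ k
    rwa [Nat.card_eq_fintype_card, Fintype.card_subtype] at this
  rw [h1]
  calc ((univ.filter (fun o : O => ¬ (P ∧ ∀ k, Q k o))).card : ℝ)
      ≤ (((univ : Finset ι).biUnion (fun k => univ.filter (fun o : O => ¬ Q k o))).card : ℝ) := by
        exact_mod_cast Finset.card_le_card h2
    _ ≤ ∑ k : ι, ((univ.filter (fun o : O => ¬ Q k o)).card : ℝ) := by
        exact_mod_cast Finset.card_biUnion_le
    _ ≤ ∑ _k : ι, x := Finset.sum_le_sum (fun k _ => h3 k)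
    _ = (Fintype.card ι : ℝ) * x := by
        rw [Finset.sum_const, Finset.card_univ, nsmul_eq_mul]

/-- REC -/
theorem rec_thm (h1 : OWNStmt) : RECStmt := by
  intro V _ _ χ hχ lam β r hPH u₀ p hu hp h
  have hlam := hPH.lam_pos
  have hbig := hPH.big
  have hβ : 1 ≤ β := by
    rcases Nat.eq_zero_or_pos β with h0 | h0
    · rw [h0] at hbig
      exact absurd hbig (Nat.not_lt_zero _)
    · exact h0
  have hβR : (1 : ℝ) ≤ (β : ℝ) := by exact_mod_cast hβ
  have hu0 : 0 ≤ u₀ := by
    have : (0 : ℝ) ≤ (lam : ℝ) := by positivity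
    linarith
  induction h with
  | zero =>
    intro c hc
    have hc' : Rng χ lam u₀ p c := by simpa [lev] using hc
    have hem : IsEmpty {ω : Om V (β ^ 2) r 0 // ¬ Good χ lam β u₀ p 0 (c, ω)} := by
      constructor
      rintro ⟨ω, hω⟩
      exact hω hc'
    rw [Nat.card_of_isEmpty]
    push_cast
    positivity
  | succ h ih =>
    intro c hc
    have hw : 8 * (lam : ℝ) ≤ u₀ * (β : ℝ) ^ h := by
      have h2 : (1 : ℝ) ≤ (β : ℝ) ^ h := one_le_pow₀ hβR
      nlinarith
    have hlev : lev β p h * (β : ℝ) ^ 2 = lev β p (h + 1) := by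
      unfold lev
      ring
    have hlev0 : 0 ≤ lev β p h := by
      unfold lev
      positivity
    have hc2 : Rng χ lam (u₀ * (β : ℝ) ^ h * β) (lev β p h * (β : ℝ) ^ 2) c := by
      have h3 : u₀ * (β : ℝ) ^ h * β = u₀ * (β : ℝ) ^ (h + 1) := by ring
      rw [h3, hlev]
      exact hc
    have hown := h1 V χ hχ lam β r hPH (u₀ * (β : ℝ) ^ h) (lev β p h) hw hlev0 c hc2
    rw [hlev] at hown
    -- bad alternatives
    have hcount := rec_count (G := V → Fin (β ^ 2)) (O := Om V (β ^ 2) r h)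
      (fun g => ¬ ((4 * (lam : ℝ) ^ 2 ≤ lev β p h →
        Mass χ c g (lam * rho lam (lev β p (h + 1)))) ∧
        ∀ k, Rng χ lam (u₀ * (β : ℝ) ^ h) (lev β p h) (part c g k)))
      (fun g o => ¬ ((4 * (lam : ℝ) ^ 2 ≤ lev β p h → Mass χ c g (lam * rho lam (lev β p (h + 1)))) ∧
        ∀ k, Good χ lam β u₀ p h (part c g k, o))) hown (by
        intro g hg
        rw [not_not] at hg
        have hM : (4 * (lam : ℝ) ^ 2 ≤ lev β p h →
            Mass χ c g (lam * rho lam (lev β p (h + 1)))) := hg.1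
        have h4 := rec_union (O := Om V (β ^ 2) r h) (ι := Fin (β ^ 2))
          ((4 * (lam : ℝ) ^ 2 ≤ lev β p h → Mass χ c g (lam * rho lam (lev β p (h + 1))))) hM
          (fun k o => Good χ lam β u₀ p h (part c g k, o))
          (1 / (4 * (β : ℝ) ^ 2) * (Nat.card (Om V (β ^ 2) r h) : ℝ))
          (fun k => ih (part c g k) (hg.2 k))
        refine le_trans h4 (le_of_eq ?_)
        rw [Fintype.card_fin]
        push_cast
        have h5 : (β : ℝ) ≠ 0 := by linarith
        field_simp)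
    -- the tuples of bad alternatives
    have hinj : Nat.card {ω : Om V (β ^ 2) r (h + 1) // ¬ Good χ lam β u₀ p (h + 1) (c, ω)} ≤
        (Nat.card {q : (V → Fin (β ^ 2)) × Om V (β ^ 2) r h //
          ¬ ((4 * (lam : ℝ) ^ 2 ≤ lev β p h → Mass χ c q.1 (lam * rho lam (lev β p (h + 1)))) ∧
            ∀ k, Good χ lam β u₀ p h (part c q.1 k, q.2))}) ^ r := by
      have hbad : ∀ ω : Om V (β ^ 2) r (h + 1), ¬ Good χ lam β u₀ p (h + 1) (c, ω) →
          ∀ i : Fin r, ¬ ((4 * (lam : ℝ) ^ 2 ≤ lev β p h →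
            Mass χ c (ω i).1 (lam * rho lam (lev β p (h + 1)))) ∧
            ∀ k, Good χ lam β u₀ p h (part c (ω i).1 k, (ω i).2)) := by
        intro ω hω i hi
        exact hω ⟨hc, i, hi.1, hi.2⟩
      have hfun := Nat.card_fun (α := Fin r) (β := {q : (V → Fin (β ^ 2)) × Om V (β ^ 2) r h //
          ¬ ((4 * (lam : ℝ) ^ 2 ≤ lev β p h → Mass χ c q.1 (lam * rho lam (lev β p (h + 1)))) ∧
            ∀ k, Good χ lam β u₀ p h (part c q.1 k, q.2))})
      rw [Nat.card_eq_fintype_card (α := Fin r), Fintype.card_fin] at hfun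
      rw [← hfun]
      refine Nat.card_le_card_of_injective
        (fun ω i => ⟨ω.1 i, hbad ω.1 ω.2 i⟩) ?_
      intro ω ω' hωω
      apply Subtype.ext
      funext i
      have := congrFun hωω i
      exact congrArg Subtype.val this
    have htot : Nat.card (Om V (β ^ 2) r (h + 1)) =
        (Nat.card ((V → Fin (β ^ 2)) × Om V (β ^ 2) r h)) ^ r := by
      have hfun := Nat.card_fun (α := Fin r) (β := (V → Fin (β ^ 2)) × Om V (β ^ 2) r h)
      rw [Nat.card_eq_fintype_card (α := Fin r), Fintype.card_fin] at hfun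
      exact hfun
    rw [htot]
    push_cast
    have hTnn : (0 : ℝ) ≤ (Nat.card ((V → Fin (β ^ 2)) × Om V (β ^ 2) r h) : ℝ) := by positivity
    calc (Nat.card {ω : Om V (β ^ 2) r (h + 1) // ¬ Good χ lam β u₀ p (h + 1) (c, ω)} : ℝ)
        ≤ ((Nat.card {q : (V → Fin (β ^ 2)) × Om V (β ^ 2) r h //
          ¬ ((4 * (lam : ℝ) ^ 2 ≤ lev β p h → Mass χ c q.1 (lam * rho lam (lev β p (h + 1)))) ∧
            ∀ k, Good χ lam β u₀ p h (part c q.1 k, q.2))} : ℕ) : ℝ) ^ r := by
          exact_mod_cast hinj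
      _ ≤ (1 / 2 * (Nat.card ((V → Fin (β ^ 2)) × Om V (β ^ 2) r h) : ℝ)) ^ r :=
          pow_le_pow_left₀ (by positivity) hcount r
      _ = (1 / 2) ^ r * (Nat.card ((V → Fin (β ^ 2)) × Om V (β ^ 2) r h) : ℝ) ^ r := by
          rw [mul_pow]
      _ ≤ 1 / (4 * (β : ℝ) ^ 2) *
          (Nat.card ((V → Fin (β ^ 2)) × Om V (β ^ 2) r h) : ℝ) ^ r := by
          refine mul_le_mul_of_nonneg_right ?_ (by positivity)
          have h7 : (4 * (β : ℝ) ^ 2) ≤ 2 ^ r := by exact_mod_cast hPH.alt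
          rw [one_div_pow]
          exact one_div_le_one_div_of_le (by positivity) h7

end Pool.Agent.H5.FR2
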